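import Mathlib
import Pool.Agent.helper22.WF.Main

/-!
# The Weil abscissa over `F[t]` can be smaller than `2`

The Weil representation zeta function of `∏_{p ∈ S} ℤ_p` is the exponential of the sum over the
primes `p` and `j ≥ 1` of `(p ^ j - 1)_S / (j p ^ (s j))`. Over the ring `F[t]`, `F` a finite field
with `q` elements, the residue fields have `|P| = q ^ deg P` elements, and the exponent becomes the
sum over the monic irreducible `P` and `j ≥ 1` of `(|P| ^ j - 1)_S / (j |P| ^ (s j))`. If
`q = r ^ (3 ^ k)` and `S` is the set of the primes `2` modulo `3` then it converges for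
`s > 1 + 3 ^ (- k)`; if `q = r ^ (2 ^ (k + 1))` and `S` is the set of the primes `3` modulo `4` then
it converges for `s > 1 + 2 ^ (- k)`.

The reason: no prime `2` modulo `3` divides `y ^ 2 + y + 1`, so that `(r ^ (3 ^ k n) - 1)_S` divides
`r ^ n - 1`; no prime `3` modulo `4` divides `z ^ 2 + 1`.
-/

set_option autoImplicit false

namespace Pool.Agent.Results.MP_fda282_nt.FunctionFields

open Polynomial

open Classical in
/-- The largest divisor of `n` all of whose prime factors lie in `S` (for `n ≥ 1`). -/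
noncomputable def sPart (S : Set ℕ) (n : ℕ) : ℕ :=
  ∏ p ∈ n.primeFactors.filter (· ∈ S), p ^ n.factorization p

/-- The term of the exponent of the Weil zeta function at a monic irreducible polynomial `P` and
`j + 1`: `(|P| ^ (j + 1) - 1)_S / ((j + 1) |P| ^ (s (j + 1)))`, `|P| = q ^ deg P`. -/
noncomputable def term (F : Type) [Field F] [Fintype F] (S : Set ℕ) (s : ℝ)
    (x : {P : F[X] // P.Monic ∧ Irreducible P} × ℕ) : ℝ :=
  (sPart S (Fintype.card F ^ (x.1.1.natDegree * (x.2 + 1)) - 1) : ℝ) /
    (((x.2 : ℝ) + 1) * (Fintype.card F : ℝ) ^ (s * ((x.1.1.natDegree : ℝ) * ((x.2 : ℝ) + 1))))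

/-- Over `F[t]` the abscissa is at most `1 + 3 ^ (- k)` for the primes `2` modulo `3` if
`|F| = r ^ (3 ^ k)`, and at most `1 + 2 ^ (- k)` for the primes `3` modulo `4` if
`|F| = r ^ (2 ^ (k + 1))`. -/
theorem result (F : Type) [Field F] [Fintype F] (r k : ℕ) (s : ℝ) :
    (Fintype.card F = r ^ 3 ^ k → 1 + 1 / (3 : ℝ) ^ k < s →
      Summable (term F {p | p % 3 = 2} s)) ∧
    (Fintype.card F = r ^ 2 ^ (k + 1) → 1 + 1 / (2 : ℝ) ^ k < s →
      Summable (term F {p | p % 4 = 3} s)) := by
  have hq : 2 ≤ Fintype.card F := Fintype.one_lt_card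
  refine ⟨fun h hs => ?_, fun h hs => ?_⟩
  · exact Pool.Agent.helper22.WF.summ F {p | p % 3 = 2}
      (fun n hn => Pool.Agent.helper22.WF.bound3 hq h n hn) hs
  · exact Pool.Agent.helper22.WF.summ F {p | p % 4 = 3}
      (fun n hn => Pool.Agent.helper22.WF.bound4 hq h n hn) hs

end Pool.Agent.Results.MP_fda282_nt.FunctionFields
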